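import Pool.Agent.U737.MN.Stm3

/-!
# Project MN, package IndL: the least index of the elements of `C_ℓ ≀ H`
-/

set_option autoImplicit false

namespace Pool.Agent.U765.MN

open Equiv

theorem two_card_le {n : ℕ} (g : Equiv.Perm (Fin n)) :
    2 * Multiset.card g.cycleType ≤ g.cycleType.sum := by
  have h : ∀ m : Multiset ℕ, (∀ x ∈ m, 2 ≤ x) → 2 * Multiset.card m ≤ m.sum := by
    intro m
    induction m using Multiset.induction_on with
    | empty => intro _; simp
    | cons a m ih =>
      intro h
      have h1 := h a (Multiset.mem_cons_self a m)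
      have h2 := ih (fun x hx => h x (Multiset.mem_cons_of_mem hx))
      simp only [Multiset.card_cons, Multiset.sum_cons]
      omega
  exact h _ (fun x hx => Equiv.Perm.two_le_of_mem_cycleType hx)

theorem t_IndL : Pool.Agent.U737.MN.IndL := by
  intro ℓ n H X _ _ _ G f hℓ hG
  classical
  have hF : Fact ℓ.Prime := ⟨hℓ⟩
  have hblk : ∀ x : X, (Finset.univ.filter (fun i => (f i).1 = x)).card = ℓ := by
    intro x
    have h1 : Finset.univ.filter (fun i => (f i).1 = x) =
        Finset.univ.image (fun t : ZMod ℓ => f.symm (x, t)) := by
      ext i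
      simp only [Finset.mem_filter, Finset.mem_univ, true_and, Finset.mem_image]
      constructor
      · intro h
        exact ⟨(f i).2, by rw [← h]; simp⟩
      · rintro ⟨t, rfl⟩
        simp
    rw [h1, Finset.card_image_of_injective, Finset.card_univ, ZMod.card]
    intro t t' h
    have := f.symm.injective h
    exact (Prod.ext_iff.1 this).2
  have hB : ∀ g : Equiv.Perm (Fin n), g ≠ 1 → ∀ c : X → ZMod ℓ,
      (∀ i, f (g i) = ((f i).1, c (f i).1 + (f i).2)) →
      ∃ k, g.cycleType = Multiset.replicate (k + 1) ℓ := by
    intro g hg c hc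
    have hp : ∀ (m : ℕ) (i : Fin n), f ((g ^ m) i) = ((f i).1, (m : ZMod ℓ) * c (f i).1 + (f i).2) := by
      intro m
      induction m with
      | zero => intro i; simp
      | succ m ih =>
        intro i
        rw [pow_succ', Equiv.Perm.mul_apply, hc, ih]
        refine Prod.ext rfl ?_
        simp only
        push_cast
        ring
    have h1 : g ^ ℓ = 1 := by
      refine Equiv.ext fun i => ?_
      apply f.injective
      rw [hp]
      simp
    have h2 := orderOf_eq_prime h1 hg
    have h3 := Equiv.Perm.cycleType_prime_order (σ := g) (by rw [h2]; exact hℓ)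
    rwa [h2] at h3
  constructor
  · -- the cycle
    obtain ⟨x₀⟩ := (inferInstance : Nonempty X)
    obtain ⟨c, hc⟩ : ∃ c : X → ZMod ℓ, c = fun x => if x = x₀ then 1 else 0 := ⟨_, rfl⟩
    let t : Equiv.Perm (X × ZMod ℓ) :=
      { toFun := fun p => (p.1, c p.1 + p.2)
        invFun := fun p => (p.1, -c p.1 + p.2)
        left_inv := fun p => by simp
        right_inv := fun p => by simp }
    let g : Equiv.Perm (Fin n) := f.trans (t.trans f.symm)
    have hg : ∀ i, f (g i) = ((f i).1, c (f i).1 + (f i).2) := fun i => by simp [g, t]
    have hsupp : g.support = Finset.univ.filter (fun i => (f i).1 = x₀) := by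
      ext i
      rw [Equiv.Perm.mem_support, Finset.mem_filter]
      simp only [Finset.mem_univ, true_and]
      constructor
      · intro h
        by_contra hne
        apply h
        apply f.injective
        rw [hg, hc]
        simp [hne]
      · intro h hi
        have h1 := hg i
        rw [hi, hc] at h1
        have h2 := (Prod.ext_iff.1 h1).2
        simp [h] at h2
    have hcard : g.support.card = ℓ := by rw [hsupp]; exact hblk x₀
    have hg1 : g ≠ 1 := by
      intro h
      rw [h, Equiv.Perm.support_one, Finset.card_empty] at hcard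
      exact hℓ.ne_zero hcard.symm
    obtain ⟨k, hk⟩ := hB g hg1 c hg
    refine ⟨g, ?_, hg1, ?_⟩
    · rw [hG]
      exact ⟨1, c, fun i => by rw [hg, one_smul]⟩
    · have h1 : g.cycleType.sum = ℓ := by rw [Equiv.Perm.sum_cycleType]; exact hcard
      rw [h1]
      rw [hk, Multiset.sum_replicate, smul_eq_mul] at h1
      have hk0 : k = 0 := by
        have h2 := hℓ.pos
        by_contra hne
        have : 2 ≤ k + 1 := by omega
        nlinarith
      rw [hk, hk0]
      simp
  · rintro j ⟨g, hgG, hg1, rfl⟩
    obtain ⟨h, c, hc⟩ := (hG g).1 hgG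
    by_cases hfix : ∀ x : X, h • x = x
    · obtain ⟨k, hk⟩ := hB g hg1 c fun i => by rw [hc, hfix]
      rw [hk, Multiset.sum_replicate, Multiset.card_replicate, smul_eq_mul]
      have h2 := hℓ.pos
      obtain ⟨r, hr⟩ : ∃ r, ℓ = r + 1 := ⟨ℓ - 1, by omega⟩
      rw [hr]
      have : (k + 1) * (r + 1) - (k + 1) = (k + 1) * r := by
        rw [Nat.mul_succ]; omega
      rw [this]
      simp only [Nat.add_sub_cancel]
      nlinarith
    · push Not at hfix
      obtain ⟨x, hx⟩ := hfix
      have h1 := two_card_le g
      have hsub : Finset.univ.filter (fun i => (f i).1 = x) ∪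
          Finset.univ.filter (fun i => (f i).1 = h • x) ⊆ g.support := by
        intro i hi
        rw [Finset.mem_union, Finset.mem_filter, Finset.mem_filter] at hi
        rw [Equiv.Perm.mem_support]
        intro hgi
        have h2 := (Prod.ext_iff.1 (hc i)).1
        rw [hgi] at h2
        simp only at h2
        rcases hi with hi | hi
        · rw [hi.2] at h2
          exact hx h2.symm
        · rw [hi.2] at h2
          exact hx (smul_left_cancel h h2.symm)
      have hdisj : Disjoint (Finset.univ.filter (fun i => (f i).1 = x))
          (Finset.univ.filter (fun i => (f i).1 = h • x)) := by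
        rw [Finset.disjoint_filter]
        intro i _ h2 h3
        exact hx (h3.symm.trans h2)
      have h4 := Finset.card_le_card hsub
      rw [Finset.card_union_of_disjoint hdisj, hblk, hblk, ← Equiv.Perm.sum_cycleType] at h4
      omega

end Pool.Agent.U765.MN
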